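import Pool.Agent.Work.MP_49847a_an.Cp.NegEx
import Pool.Agent.Work.MP_49847a_an.Tr.TrMain

/-!
# Hermitian sums of squares on compact algebraic boundaries: the complete criterion

Let `r` be a real polynomial on `ℂⁿ`, `n ≥ 1`, with compact zero set `X`.  Then `r` or `-r` is
positive near infinity, and the property below is the same for `r` and `-r`; let `r > 0` near
infinity, and `D = {r ≤ 0}`.  Every real polynomial which is positive on `X` is a sum of squared
moduli of holomorphic polynomials modulo `r` if and only if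

* (`PolConvex`) `D` is polynomially convex,
* (`Separated`) `r(a, conj b) ≠ 0` for all points `a ≠ b` of `D`,
* (`LeviPos`) the Levi form of `r` is positive on all `v ≠ 0` with `∂r(a) v = 0`, `a ∈ X`,
* (`Growth`) `|r(z, conj w)|² = O(r(z, conj z))` as `z → ∞`, for each `w`.

If `r` divides every real polynomial vanishing on `X` (`Reduced`), this property is equivalent to
the property asked for in Q1: every real polynomial which is positive on `X` agrees on `X` with a sum
of squared moduli of holomorphic polynomials (`SumsOn`).  The condition `Growth` holds if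
`r ≥ δ ‖z‖^{2d}` near infinity, `δ > 0`, and `r` is a difference of two Hermitian sums of squares of
polynomials of degree at most `d`.

Every compact algebraic boundary `∂Ω`, `Ω` open, each point of which is a limit of interior points of
the complement of `Ω` (for instance `∂Ω` of class `C¹`), is the zero set of a reduced `r` which is
positive near infinity; so `∂Ω` has the property asked for in Q1 if and only if `r` satisfies the four
conditions.  If `Ω` is bounded and connected and its exterior is connected, then `D` is the closure of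
`Ω`.

As a general statement Q1 is false: the property fails for the strongly pseudoconvex ellipsoid
`‖z‖² + ((Re z_i)² - (Im z_i)²)/2 < 1` in `ℂⁿ`, for every `n ≥ 1`, and for the strongly pseudoconvex domain
`(1 + ‖z‖²)³ < 32 |z_0 z_1|²` in `ℂ²`, for which all conditions except `PolConvex` hold.

The definitions are in `Pool.Agent.Work.MP_49847a_an.Defs`, `….Rat.RDefs`, `….Lf.LDefs` and
`….Cp.RDef`:

* a real polynomial is an `R : MvPolynomial (Fin n ⊕ Fin n) ℝ`, with value `ev R z` at `z ∈ ℂⁿ`
  obtained by inserting `Re z_i` for the variable `inl i` and `Im z_i` for the variable `inr i`;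
* `pol R z w = R(z, conj w)`: `(z_i + conj w_i)/2` and `(z_i - conj w_i)/(2i)` are inserted instead;
* `zb R`: `R` as a polynomial in `z` (variables `inl i`) and `conj z` (variables `inr i`);
* `dz r i a = ∂r/∂z_i(a)`, `dzz r i j a = ∂²r/∂z_i∂(conj z_j)(a)`;
* `nrm p z = ∑_j |p_j(z)|²`, `nn z = ∑_i |z_i|²`, `ZZ r = {z | ev r z = 0}`;
* `hull A`: the points `a` with `|p(a)| ≤ sup_A |p|` for all holomorphic polynomials `p`;
* `PosInf r`: `r > 0` near infinity; `Dg d r`: `r = ‖a‖² - ‖b‖²` with holomorphic polynomials of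
  degree at most `d`; `Gr d r`: `r ≥ δ ‖z‖^{2d}` near infinity for some `δ > 0`;
* `StronglyPsc r`: `{r < 0}` is connected with compact boundary `{r = 0}`, `dr ≠ 0` there and `LeviPos r`;
* `SumsMod r`, `SumsOn X`, `Reduced r`: the three properties in the statement above.
-/

open Pool.Agent.Work.MP_49847a_an MvPolynomial

namespace Pool.Agent.Results.MP_49847a_an.CompleteCriterion

/-- **Hermitian sums of squares on compact algebraic boundaries: the complete criterion.** -/
theorem result :
    (∀ n : ℕ, 0 < n →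
      (∀ r : MvPolynomial (Fin n ⊕ Fin n) ℝ, IsCompact (ZZ r) → PosInf r ∨ PosInf (-r)) ∧
      (∀ r : MvPolynomial (Fin n ⊕ Fin n) ℝ, PosInf r →
        (SumsMod r ↔ PolConvex r ∧ Separated r ∧ LeviPos r ∧ Growth r) ∧
        (Reduced r → (SumsOn (ZZ r) ↔ SumsMod r))) ∧
      (∀ (d : ℕ) (r : MvPolynomial (Fin n ⊕ Fin n) ℝ), Dg d r → Gr d r → PosInf r ∧ Growth r) ∧
      (∀ (F : MvPolynomial (Fin n ⊕ Fin n) ℝ) (Ω : Set (Fin n → ℂ)), IsOpen Ω →
        frontier Ω = ZZ F → IsCompact (frontier Ω) → frontier Ω ⊆ closure (interior Ωᶜ) →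
        ∃ r : MvPolynomial (Fin n ⊕ Fin n) ℝ, frontier Ω = ZZ r ∧ Reduced r ∧ PosInf r ∧
          (Bornology.IsBounded Ω → IsConnected Ω → IsPreconnected (closure Ω)ᶜ →
            {z | ev r z ≤ 0} = closure Ω) ∧
          (SumsOn (frontier Ω) ↔ PolConvex r ∧ Separated r ∧ LeviPos r ∧ Growth r)) ∧
      (∃ (r : MvPolynomial (Fin n ⊕ Fin n) ℝ) (i : Fin n),
        (∀ z, ev r z = nn z + ((z i).re ^ 2 - (z i).im ^ 2) / 2 - 1) ∧ StronglyPsc r ∧
          ¬ SumsOn (ZZ r))) ∧
    (∃ r : MvPolynomial (Fin 2 ⊕ Fin 2) ℝ,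
      (∀ z, ev r z = (1 + nn z) ^ 3 - 32 * (‖z 0‖ ^ 2 * ‖z 1‖ ^ 2)) ∧ StronglyPsc r ∧ PosInf r ∧
        Separated r ∧ Growth r ∧ ¬ PolConvex r ∧ ¬ SumsOn (ZZ r)) :=
  ⟨fun _ hn => ⟨fun _ hc => main_sign hn hc, fun _ hP => main_s hn hP,
    fun _ _ hd hg => main_lead hd hg, fun _ _ hΩ hX hc hE => main_t hn hΩ hX hc hE, neg_ex hn⟩,
    tr_ex⟩

end Pool.Agent.Results.MP_49847a_an.CompleteCriterion
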