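import Pool.Agent.Work.MP_49847a_an.Rat.HullT

/-!
# An obstruction on the polynomial hull to Hermitian sums of squares

Let `r` be a real polynomial on `ℂⁿ` whose zero set `X` is bounded, and suppose that every real
polynomial which is positive on `X` agrees on `X` with a sum of squared moduli of holomorphic
polynomials. Let `a, b` be points of the polynomial hull of `X` such that the polarisation
`F(a, conj b)` is zero for every real polynomial `F` vanishing on `X` (if `r` generates the ideal of
`X`: such that `r(a, conj b) = 0`). Then `a = b` and `a ∈ X`.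

The definitions are in `Pool.Agent.Work.MP_49847a_an.Defs` and
`Pool.Agent.Work.MP_49847a_an.Rat.RDefs`:

* a real polynomial is an `R : MvPolynomial (Fin n ⊕ Fin n) ℝ`, with value `ev R z` at `z ∈ ℂⁿ`
  obtained by inserting `Re z_i` for the variable `inl i` and `Im z_i` for the variable `inr i`;
* `nrm p z = ∑_j |p_j(z)|²`;
* `SumsOn X`: for every real polynomial `R` with `ev R > 0` on `X` there are holomorphic polynomials
  `p_1, …, p_m` with `ev R z = nrm p z` for all `z ∈ X`;
* `hull X`: the points `a` with `|p(a)| ≤ sup_X |p|` for all holomorphic polynomials `p`;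
* `pol F z w`: the polarisation `F(z, conj w)`, i.e. the polynomial `F` with `(z + conj w)/2` and
  `(z - conj w)/(2i)` inserted for the real and imaginary parts; `pol F z z = ev F z`.
-/

open Pool.Agent.Work.MP_49847a_an

namespace Pool.Agent.Results.MP_49847a_an.HullObstruction

/-- **The complexification of `X` meets the hull only in the diagonal.** -/
theorem result {n : ℕ} {r : MvPolynomial (Fin n ⊕ Fin n) ℝ}
    (hX : Bornology.IsBounded {z : Fin n → ℂ | ev r z = 0}) (h : SumsOn {z | ev r z = 0})
    {a b : Fin n → ℂ} (ha : a ∈ hull {z | ev r z = 0}) (hb : b ∈ hull {z | ev r z = 0})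
    (hab : ∀ F : MvPolynomial (Fin n ⊕ Fin n) ℝ, (∀ z, ev r z = 0 → ev F z = 0) →
      pol F a b = 0) : a = b ∧ ev r a = 0 := by
  have hc : IsCompact {z : Fin n → ℂ | ev r z = 0} :=
    Metric.isCompact_of_isClosed_isBounded
      (isClosed_eq (ev_continuous r) continuous_const) hX
  have h1 : a = b := hull_two hc h ha hb fun F hF => hab F fun z hz => hF z hz
  refine ⟨h1, ?_⟩
  have h2 := hab r fun z hz => hz
  rw [← h1, pol_self] at h2
  exact_mod_cast h2

end Pool.Agent.Results.MP_49847a_an.HullObstruction
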