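import Pool.Agent.Work.MP_49847a_an.Lf.T3
import Pool.Agent.Work.MP_49847a_an.Lf.B9

/-!
# Hermitian sums of squares: leading forms, and homogeneous hypersurfaces

(1) Let `r` be a real polynomial on `ℂⁿ` with bounded zero set `X` which divides every real polynomial
vanishing on `X`. If every real polynomial positive on `X` agrees on `X` with a sum of squared moduli
of holomorphic polynomials, then the total degree of `r` is twice the degree in `z` of `r(z, conj z)`.

(2) Let `Q` be a real form of degree `2d > 0` on `ℂⁿ = ℝ²ⁿ`, positive off the origin. Every real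
polynomial positive on `{z : Q(z - c) = 1}` agrees on this set with a sum of squared moduli of
holomorphic polynomials if and only if `Q = h^d` for a positive definite Hermitian form `h`.

The definitions are in `Pool.Agent.Work.MP_49847a_an.Defs` (`ev`, `nrm`),
`Pool.Agent.Work.MP_49847a_an.Rat.RDefs` (`SumsOn`) and
`Pool.Agent.Work.MP_49847a_an.Lf.LDefs` (`zb`, `degz`):

* a real polynomial is an `R : MvPolynomial (Fin n ⊕ Fin n) ℝ`, with value `ev R z` at `z ∈ ℂⁿ`
  obtained by inserting `Re z_i` for the variable `inl i` and `Im z_i` for the variable `inr i`;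
* `SumsOn X`: for every real polynomial `R` with `ev R > 0` on `X` there are holomorphic polynomials
  `p_1, …, p_m` with `ev R z = ∑_j |p_j(z)|²` for all `z ∈ X`;
* `zb r`: `r` written in the variables `z` and `conj z`; `degz`: the degree in `z`.
-/

open Pool.Agent.Work.MP_49847a_an

namespace Pool.Agent.Results.MP_49847a_an.LeadingForm

/-- **The degree condition, and the complete answer for homogeneous hypersurfaces.** -/
theorem result :
    (∀ (n : ℕ) (r : MvPolynomial (Fin n ⊕ Fin n) ℝ),
      Bornology.IsBounded {z : Fin n → ℂ | ev r z = 0} →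
      (∀ F : MvPolynomial (Fin n ⊕ Fin n) ℝ, (∀ z, ev r z = 0 → ev F z = 0) → r ∣ F) →
      SumsOn {z : Fin n → ℂ | ev r z = 0} → r.totalDegree = 2 * degz (zb r)) ∧
    (∀ (n d : ℕ) (Q : MvPolynomial (Fin n ⊕ Fin n) ℝ), 0 < d → Q.IsHomogeneous (2 * d) →
      (∀ z : Fin n → ℂ, z ≠ 0 → 0 < ev Q z) → ∀ c : Fin n → ℂ,
      (SumsOn {z | ev Q (z - c) = 1} ↔ ∃ h : QuadraticForm ℝ (Fin n → ℂ), h.PosDef ∧
        (∀ z, h (Complex.I • z) = h z) ∧ ∀ z, ev Q z = h z ^ d)) :=
  ⟨fun _ r hb hgen hS => lead_form r hb hgen hS,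
    fun _ _ Q hd hQ hpos c => homog_iff Q hd hQ hpos c⟩

end Pool.Agent.Results.MP_49847a_an.LeadingForm
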